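import Pool.Agent.Helper7.KS3.Goals

/-!
# Hub levels
-/

set_option autoImplicit false
open Classical

namespace Pool.Agent.Helper48.KS3

open Pool.Agent.Helper7.KS3

section

variable {V : Type} [Fintype V] (d g : ℕ) (PF PD : V → Finset V)

/-- The operator of the proof. -/
noncomputable def B (w : V → ℝ) (v : V) : ℝ :=
  (1 / (4 * (d : ℝ))) * ∑ c, (if v ∈ PF c then w c else 0) +
    (1 / 2 ^ g) * ∑ c, (if v ∈ PD c then w c else 0)

lemma sum_ite_nonneg (P : V → Finset V) (w : V → ℝ) (hw : ∀ v, 0 ≤ w v) (v : V) :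
    0 ≤ ∑ c, (if v ∈ P c then w c else 0) :=
  Finset.sum_nonneg fun c _ => by split_ifs <;> simp [hw]

lemma B_nonneg (w : V → ℝ) (hw : ∀ v, 0 ≤ w v) (v : V) : 0 ≤ B d g PF PD w v := by
  have h1 := sum_ite_nonneg PF w hw v
  have h2 := sum_ite_nonneg PD w hw v
  unfold B
  positivity

lemma sum_sum_ite (P : V → Finset V) (w : V → ℝ) :
    ∑ v, ∑ c, (if v ∈ P c then w c else 0) = ∑ c, ((P c).card : ℝ) * w c := by
  rw [Finset.sum_comm]
  refine Finset.sum_congr rfl fun c _ => ?_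
  rw [← Finset.sum_filter, Finset.sum_const, nsmul_eq_mul]
  congr 3
  ext x
  simp

lemma B_sum (m : ℕ) (hd : 1 ≤ d) (hm : 4 * m ≤ 2 ^ g) (hF : ∀ v, (PF v).card ≤ d)
    (hD : ∀ v, (PD v).card ≤ m) (w : V → ℝ) (hw : ∀ v, 0 ≤ w v) :
    ∑ v, B d g PF PD w v ≤ (1 / 2) * ∑ c, w c := by
  unfold B
  rw [Finset.sum_add_distrib, ← Finset.mul_sum, ← Finset.mul_sum, sum_sum_ite, sum_sum_ite]
  have h1 : ∑ c, ((PF c).card : ℝ) * w c ≤ (d : ℝ) * ∑ c, w c := by
    rw [Finset.mul_sum]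
    refine Finset.sum_le_sum fun c _ => mul_le_mul_of_nonneg_right ?_ (hw c)
    exact_mod_cast hF c
  have h2 : ∑ c, ((PD c).card : ℝ) * w c ≤ (m : ℝ) * ∑ c, w c := by
    rw [Finset.mul_sum]
    refine Finset.sum_le_sum fun c _ => mul_le_mul_of_nonneg_right ?_ (hw c)
    exact_mod_cast hD c
  have hs : 0 ≤ ∑ c, w c := Finset.sum_nonneg fun c _ => hw c
  have hd' : (1 : ℝ) ≤ d := by exact_mod_cast hd
  have hm' : 4 * (m : ℝ) ≤ 2 ^ g := by exact_mod_cast hm
  have h3 : (1 / (4 * (d : ℝ))) * ∑ c, ((PF c).card : ℝ) * w c ≤ (1 / 4) * ∑ c, w c := by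
    calc (1 / (4 * (d : ℝ))) * ∑ c, ((PF c).card : ℝ) * w c
        ≤ (1 / (4 * (d : ℝ))) * ((d : ℝ) * ∑ c, w c) := mul_le_mul_of_nonneg_left h1 (by positivity)
      _ = (1 / 4) * ∑ c, w c := by
          have : (d : ℝ) ≠ 0 := by linarith
          field_simp
  have h4 : (1 / (2 : ℝ) ^ g) * ∑ c, ((PD c).card : ℝ) * w c ≤ (1 / 4) * ∑ c, w c := by
    calc (1 / (2 : ℝ) ^ g) * ∑ c, ((PD c).card : ℝ) * w c
        ≤ (1 / (2 : ℝ) ^ g) * ((m : ℝ) * ∑ c, w c) := mul_le_mul_of_nonneg_left h2 (by positivity)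
      _ = ((m : ℝ) / 2 ^ g) * ∑ c, w c := by ring
      _ ≤ (1 / 4) * ∑ c, w c := by
          refine mul_le_mul_of_nonneg_right ?_ hs
          rw [div_le_iff₀ (by positivity)]
          linarith
  linarith

lemma B_add_sum (s : Finset ℕ) (f : ℕ → V → ℝ) (v : V) :
    B d g PF PD (fun u => ∑ i ∈ s, f i u) v = ∑ i ∈ s, B d g PF PD (f i) v := by
  unfold B
  rw [Finset.sum_add_distrib, ← Finset.mul_sum, ← Finset.mul_sum]
  congr 2
  · rw [Finset.sum_comm]
    refine Finset.sum_congr rfl fun c _ => ?_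
    split_ifs <;> simp
  · rw [Finset.sum_comm]
    refine Finset.sum_congr rfl fun c _ => ?_
    split_ifs <;> simp

/-- The iterates of the constant `1`. -/
noncomputable def it : ℕ → V → ℝ
  | 0 => fun _ => 1
  | i + 1 => B d g PF PD (it i)

lemma it_nonneg (i : ℕ) : ∀ v, 0 ≤ it d g PF PD i v := by
  induction i with
  | zero => intro v; simp [it]
  | succ i ih => intro v; exact B_nonneg d g PF PD _ ih v

lemma it_sum (m : ℕ) (hd : 1 ≤ d) (hm : 4 * m ≤ 2 ^ g) (hF : ∀ v, (PF v).card ≤ d)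
    (hD : ∀ v, (PD v).card ≤ m) (i : ℕ) :
    ∑ v, it d g PF PD i v ≤ (Fintype.card V : ℝ) / 2 ^ i := by
  induction i with
  | zero => simp [it]
  | succ i ih =>
    have h := B_sum d g PF PD m hd hm hF hD (it d g PF PD i) (it_nonneg d g PF PD i)
    calc ∑ v, it d g PF PD (i + 1) v ≤ (1 / 2) * ∑ c, it d g PF PD i c := h
      _ ≤ (1 / 2) * ((Fintype.card V : ℝ) / 2 ^ i) := mul_le_mul_of_nonneg_left ih (by norm_num)
      _ = (Fintype.card V : ℝ) / 2 ^ (i + 1) := by rw [pow_succ]; field_simp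

end

theorem s_lev : S_LEV := by
  intro V _ d m g PF PD hd hm hF hD
  obtain ⟨N, hN⟩ : ∃ N : ℕ, Fintype.card V ≤ 2 ^ (N + 1) :=
    ⟨Fintype.card V, (Nat.lt_two_pow_self).le.trans (Nat.pow_le_pow_right (by norm_num) (by omega))⟩
  set w : V → ℝ := fun v => ∑ i ∈ Finset.range (N + 1), it d g PF PD i v with hw
  have hw1 : ∀ v, 1 ≤ w v := by
    intro v
    have h1 : it d g PF PD 0 v ≤ w v :=
      Finset.single_le_sum (f := fun i => it d g PF PD i v)
        (fun i _ => it_nonneg d g PF PD i v) (Finset.mem_range.2 (Nat.succ_pos N))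
    simpa [it] using h1
  have hw0 : ∀ v, 0 < w v := fun v => lt_of_lt_of_le one_pos (hw1 v)
  have hsmall : ∀ v, it d g PF PD (N + 1) v ≤ 1 := by
    intro v
    have h1 : it d g PF PD (N + 1) v ≤ ∑ u, it d g PF PD (N + 1) u :=
      Finset.single_le_sum (f := fun u => it d g PF PD (N + 1) u)
        (fun u _ => it_nonneg d g PF PD (N + 1) u) (Finset.mem_univ v)
    have h2 := it_sum d g PF PD m hd hm hF hD (N + 1)
    have h3 : (Fintype.card V : ℝ) / 2 ^ (N + 1) ≤ 1 := by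
      rw [div_le_one (by positivity)]
      exact_mod_cast hN
    linarith
  have hstar : ∀ v, B d g PF PD w v ≤ w v := by
    intro v
    have h1 : B d g PF PD w v = ∑ i ∈ Finset.range (N + 1), it d g PF PD (i + 1) v := by
      rw [hw, B_add_sum]
      rfl
    have h2 : ∑ i ∈ Finset.range (N + 1), it d g PF PD (i + 1) v + it d g PF PD 0 v =
        w v + it d g PF PD (N + 1) v := by
      rw [← Finset.sum_range_succ' (fun i => it d g PF PD i v) (N + 1),
        Finset.sum_range_succ]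
    have h3 : it d g PF PD 0 v = 1 := rfl
    have h4 := hsmall v
    linarith
  have hstarF : ∀ v, (1 / (4 * (d : ℝ))) * ∑ c, (if v ∈ PF c then w c else 0) ≤ w v := by
    intro v
    have h1 := hstar v
    have h2 := sum_ite_nonneg PD w (fun u => (hw0 u).le) v
    unfold B at h1
    have h3 : 0 ≤ (1 / (2 : ℝ) ^ g) * ∑ c, (if v ∈ PD c then w c else 0) := by positivity
    linarith
  have hstarD : ∀ v, (1 / (2 : ℝ) ^ g) * ∑ c, (if v ∈ PD c then w c else 0) ≤ w v := by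
    intro v
    have h1 := hstar v
    have h2 := sum_ite_nonneg PF w (fun u => (hw0 u).le) v
    unfold B at h1
    have h3 : 0 ≤ (1 / (4 * (d : ℝ))) * ∑ c, (if v ∈ PF c then w c else 0) := by positivity
    linarith
  set W : ℝ := ∑ v, w v with hW
  have hWle : ∀ v, w v ≤ W := fun v =>
    Finset.single_le_sum (f := w) (fun u _ => (hw0 u).le) (Finset.mem_univ v)
  have hex : ∀ v, ∃ n : ℕ, (2 : ℝ) ^ n ≤ W / w v ∧ W / w v < 2 ^ (n + 1) := fun v =>
    exists_nat_pow_near ((one_le_div (hw0 v)).2 (hWle v)) (by norm_num)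
  choose ℓ hℓ1 hℓ2 using hex
  have hl1 : ∀ v, (2 : ℝ) ^ ℓ v * w v ≤ W := fun v => (le_div_iff₀ (hw0 v)).1 (hℓ1 v)
  have hl2 : ∀ v, W < (2 : ℝ) ^ (ℓ v + 1) * w v := fun v => (div_lt_iff₀ (hw0 v)).1 (hℓ2 v)
  -- children of bounded level have large weight
  have hchild : ∀ v c J, ℓ c ≤ ℓ v + J → w v ≤ 2 ^ (J + 1) * w c := by
    intro v c J h
    have h1 : (2 : ℝ) ^ (ℓ c + 1) * w c ≤ 2 ^ (ℓ v + J + 1) * w c :=
      mul_le_mul_of_nonneg_right (pow_le_pow_right₀ (by norm_num) (by omega)) (hw0 c).le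
    have h2 : (2 : ℝ) ^ ℓ v * w v < 2 ^ ℓ v * (2 ^ (J + 1) * w c) := by
      calc (2 : ℝ) ^ ℓ v * w v ≤ W := hl1 v
        _ < 2 ^ (ℓ c + 1) * w c := hl2 c
        _ ≤ 2 ^ (ℓ v + J + 1) * w c := h1
        _ = 2 ^ ℓ v * (2 ^ (J + 1) * w c) := by rw [add_assoc, pow_add]; ring
    exact (lt_of_mul_lt_mul_left h2 (by positivity)).le
  refine ⟨ℓ, ?_, ?_, ?_⟩
  · intro v u hu
    have h1 : w v ≤ ∑ c, (if u ∈ PD c then w c else 0) := by
      have h2 := Finset.single_le_sum (f := fun c => if u ∈ PD c then w c else 0)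
        (fun c _ => by split_ifs; exacts [(hw0 c).le, le_rfl]) (Finset.mem_univ v)
      simpa [hu] using h2
    have h2 : w v ≤ 2 ^ g * w u := by
      have h3 := hstarD u
      rw [one_div, inv_mul_le_iff₀ (by positivity)] at h3
      exact h1.trans h3
    have h3 : (2 : ℝ) ^ ℓ u * w u < 2 ^ (ℓ v + 1 + g) * w u := by
      calc (2 : ℝ) ^ ℓ u * w u ≤ W := hl1 u
        _ < 2 ^ (ℓ v + 1) * w v := hl2 v
        _ ≤ 2 ^ (ℓ v + 1) * (2 ^ g * w u) := mul_le_mul_of_nonneg_left h2 (by positivity)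
        _ = 2 ^ (ℓ v + 1 + g) * w u := by rw [pow_add (2 : ℝ) (ℓ v + 1) g]; ring
    have h4 : (2 : ℝ) ^ ℓ u < 2 ^ (ℓ v + 1 + g) := lt_of_mul_lt_mul_right h3 (hw0 u).le
    have h5 : ℓ u < ℓ v + 1 + g := (pow_lt_pow_iff_right₀ (by norm_num)).1 h4
    omega
  · intro v
    set X := Finset.univ.filter (fun c => v ∈ PF c ∧ ℓ c ≤ ℓ v) with hX
    have h1 : (X.card : ℝ) * (w v / 2) ≤ ∑ c, (if v ∈ PF c then w c else 0) := by
      calc (X.card : ℝ) * (w v / 2) = ∑ _c ∈ X, (w v / 2) := by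
            rw [Finset.sum_const, nsmul_eq_mul]
        _ ≤ ∑ c ∈ X, (if v ∈ PF c then w c else 0) := by
            refine Finset.sum_le_sum fun c hc => ?_
            obtain ⟨hc1, hc2⟩ := (Finset.mem_filter.1 hc).2
            have h2 := hchild v c 0 (by omega)
            rw [if_pos hc1]
            rw [zero_add, pow_one] at h2
            linarith
        _ ≤ ∑ c, (if v ∈ PF c then w c else 0) :=
            Finset.sum_le_sum_of_subset_of_nonneg (Finset.subset_univ _)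
              (fun c _ _ => by split_ifs; exacts [(hw0 c).le, le_rfl])
    have hd' : (1 : ℝ) ≤ d := by exact_mod_cast hd
    have h2 : (X.card : ℝ) * (w v / 2) ≤ (4 * (d : ℝ)) * w v := by
      have h3 := hstarF v
      rw [one_div, inv_mul_le_iff₀ (by positivity)] at h3
      exact h1.trans h3
    have h3 : (X.card : ℝ) * w v ≤ (8 * (d : ℝ)) * w v := by linarith
    have h4 : (X.card : ℝ) ≤ 8 * (d : ℝ) := le_of_mul_le_mul_right h3 (hw0 v)
    exact_mod_cast h4
  · intro v J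
    set X := Finset.univ.filter (fun c => v ∈ PD c ∧ ℓ c ≤ ℓ v + J) with hX
    have h1 : (X.card : ℝ) * (w v / 2 ^ (J + 1)) ≤ ∑ c, (if v ∈ PD c then w c else 0) := by
      calc (X.card : ℝ) * (w v / 2 ^ (J + 1)) = ∑ _c ∈ X, (w v / 2 ^ (J + 1)) := by
            rw [Finset.sum_const, nsmul_eq_mul]
        _ ≤ ∑ c ∈ X, (if v ∈ PD c then w c else 0) := by
            refine Finset.sum_le_sum fun c hc => ?_
            obtain ⟨hc1, hc2⟩ := (Finset.mem_filter.1 hc).2
            have h2 := hchild v c J hc2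
            rw [if_pos hc1, div_le_iff₀ (by positivity), mul_comm]
            exact h2
        _ ≤ ∑ c, (if v ∈ PD c then w c else 0) :=
            Finset.sum_le_sum_of_subset_of_nonneg (Finset.subset_univ _)
              (fun c _ _ => by split_ifs; exacts [(hw0 c).le, le_rfl])
    have h2 : (X.card : ℝ) * (w v / 2 ^ (J + 1)) ≤ 2 ^ g * w v := by
      have h3 := hstarD v
      rw [one_div, inv_mul_le_iff₀ (by positivity)] at h3
      exact h1.trans h3
    have h3 : (X.card : ℝ) * w v ≤ 2 ^ (g + J + 1) * w v := by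
      rw [← mul_div_assoc, div_le_iff₀ (by positivity)] at h2
      calc (X.card : ℝ) * w v ≤ 2 ^ g * w v * 2 ^ (J + 1) := h2
        _ = 2 ^ (g + J + 1) * w v := by rw [add_assoc, pow_add (2 : ℝ) g (J + 1)]; ring
    have h4 : (X.card : ℝ) ≤ 2 ^ (g + J + 1) := le_of_mul_le_mul_right h3 (hw0 v)
    exact_mod_cast h4

end Pool.Agent.Helper48.KS3
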